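import Pool.Agent.P.MP_0b9d6e_co.All

namespace Pool.Agent.Results.MP_0b9d6e_co.Superexp

open Pool.Agent.P.MP_0b9d6e_co

/-- For every `d ≥ 1` there are ordered 3-uniform hypergraphs on `n` vertices with maximum degree
`d` whose ordered Ramsey numbers grow superexponentially. -/
theorem result (d : ℕ) (hd : 0 < d) :
    ∃ H : ∀ n : ℕ, Finset (Finset (Fin n)), (∀ n, ∀ e ∈ H n, e.card = 3) ∧
      (∀ n, 2 * d + 1 ≤ n → maxDeg (H n) = d) ∧ (∀ n, Arrows (ramsey (H n)) (H n)) ∧
      Filter.Tendsto (fun n : ℕ => Real.logb 2 (ramsey (H n)) / n) Filter.atTop Filter.atTop :=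
  top_all d hd

end Pool.Agent.Results.MP_0b9d6e_co.Superexp
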